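import Pool.Agent.helper82.T5.SpecS

set_option autoImplicit false

/-! Row t5:ST1 (MP_16912e_nt), the small primes dividing the conductor. -/

namespace Pool.Agent.T5

open Finset NumberField Pool.Agent.helper3.FT Pool.Agent.helper47.RA

/-- lift of a set of triples of residues to integers -/
noncomputable def ST1_lift (q : ℕ) [NeZero q] (A : Set (ZMod q × ZMod q × ZMod q)) :
    Finset (ℤ × ℤ × ℤ) :=
  (Set.toFinite A).toFinset.image (fun x => ((x.1.val : ℤ), (x.2.1.val : ℤ), (x.2.2.val : ℤ)))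

lemma ST1_lift_card (q : ℕ) [NeZero q] (A : Set (ZMod q × ZMod q × ZMod q)) :
    (ST1_lift q A).card ≤ A.ncard := by
  unfold ST1_lift
  refine le_trans Finset.card_image_le ?_
  rw [Set.ncard_eq_toFinset_card A (Set.toFinite A)]

lemma ST1_lift_mem (q : ℕ) [NeZero q] (A : Set (ZMod q × ZMod q × ZMod q)) (m g r : ℤ)
    (h : ((m : ZMod q), (g : ZMod q), (r : ZMod q)) ∈ A) :
    ∃ c ∈ ST1_lift q A, (q : ℤ) ∣ m - c.1 ∧ (q : ℤ) ∣ g - c.2.1 ∧ (q : ℤ) ∣ r - c.2.2 := by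
  have key : ∀ x : ℤ, (q : ℤ) ∣ x - (((x : ZMod q).val : ℕ) : ℤ) := by
    intro x
    rw [← ZMod.intCast_eq_intCast_iff_dvd_sub]
    simp
  refine ⟨(((m : ZMod q).val : ℤ), ((g : ZMod q).val : ℤ), ((r : ZMod q).val : ℤ)), ?_,
    key m, key g, key r⟩
  unfold ST1_lift
  rw [Finset.mem_image]
  exact ⟨_, (Set.Finite.mem_toFinset _).2 h, rfl⟩

lemma ST1_cast (q : ℕ) (n k m g r : ℤ) :
    Pp (n : ZMod q) (k : ZMod q) (m : ZMod q) (g : ZMod q) (r : ZMod q) =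
      ((Pp n k m g r : ℤ) : ZMod q) := by
  unfold Pp Ap Lp Zp
  push_cast
  ring

lemma ST1_large (δ ε : ℝ) (hδ : 0 < δ) (hε : 0 < ε) :
    ∃ N₀ : ℝ, 1 ≤ N₀ ∧ ∀ N : ℝ, N₀ ≤ N →
      2 * ((N ^ (δ / 10000) + 1) * N ^ (-(δ / 4))) ≤ ε := by
  have hc : 0 < δ / 4 - δ / 10000 := by linarith
  have h1 := tendsto_rpow_neg_atTop hc
  have h2 : ∀ᶠ N : ℝ in Filter.atTop, N ^ (-(δ / 4 - δ / 10000)) < ε / 4 :=
    h1.eventually_lt_const (by positivity)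
  obtain ⟨M, hM⟩ := Filter.eventually_atTop.1 h2
  refine ⟨max M 1, le_max_right _ _, fun N hN => ?_⟩
  have hN1 : 1 ≤ N := le_trans (le_max_right _ _) hN
  have h3 := hM N (le_trans (le_max_left _ _) hN)
  have hN0 : 0 < N := by linarith
  have h4 : 1 ≤ N ^ (δ / 10000) := Real.one_le_rpow hN1 (by positivity)
  have h5 : N ^ (δ / 10000) * N ^ (-(δ / 4)) = N ^ (-(δ / 4 - δ / 10000)) := by
    rw [← Real.rpow_add hN0]
    ring_nf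
  have h6 : 0 < N ^ (-(δ / 4)) := Real.rpow_pos_of_pos hN0 _
  nlinarith

/-- one prime -/
lemma ST1_one (hSQ0 : SQ0_stmt) (hSQ2 : SQ2_stmt) (hSQ4 : SQ4_stmt) (δ κ C₁ C₂ N Y : ℝ)
    (hδ : 0 < δ) (hN : 1 ≤ N)
    (h1 : ∀ e : ℕ, 1 ≤ e → (e : ℝ) ≤ N ^ (δ / 5000) → ∀ (s : ℕ) (S : ℕ × ℕ → Finset (ℤ × ℤ × ℤ)),
      (∀ p, (S p).card ≤ s) → ∀ F : Finset Tpl, (∀ t ∈ F, Cen κ N Y (N ^ (1 / 2 + δ / 100)) t ∧
      Nat.Coprime t.1.1 e ∧ ∃ c ∈ S t.1, (e : ℤ) ∣ t.2.1 - c.1 ∧ (e : ℤ) ∣ t.2.2.1 - c.2.1 ∧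
        (e : ℤ) ∣ RR t - c.2.2) →
      (F.card : ℝ) ≤ (C₁ * s / (e : ℝ) ^ 3 + N ^ (-(δ / 4))) * (Y * N ^ (1 / 2 + δ / 100)))
    (h2 : ∀ p : ℕ, p.Prime → (p : ℝ) ≤ N ^ (δ / 5000) → ∀ (s : ℕ)
      (S : ℕ × ℕ → Finset (ℤ × ℤ × ℤ)),
      (∀ p, (S p).card ≤ s) → ∀ F : Finset Tpl, (∀ t ∈ F, Cen κ N Y (N ^ (1 / 2 + δ / 100)) t ∧
      p ∣ t.1.1 ∧ ∃ c ∈ S t.1, (p : ℤ) ∣ t.2.1 - c.1 ∧ (p : ℤ) ∣ t.2.2.1 - c.2.1 ∧
        (p : ℤ) ∣ RR' t - c.2.2) →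
      (F.card : ℝ) ≤ (C₂ * s / (p : ℝ) ^ 4 + N ^ (-(δ / 4))) * (Y * N ^ (1 / 2 + δ / 100)))
    (p : ℕ) (hp : p.Prime) (hp2 : p ≠ 2) (hpN : (p : ℝ) ≤ N ^ (δ / 10000)) (F : Finset Tpl)
    (hF : ∀ t ∈ F, Cen κ N Y (N ^ (1 / 2 + δ / 100)) t ∧ (p : ℤ) ^ 2 ∣ dis t) :
    (F.card : ℝ) ≤ ((4 * C₁ + 2 * C₂) * (1 / (p : ℝ) ^ 2) + 2 * N ^ (-(δ / 4))) *
      (Y * N ^ (1 / 2 + δ / 100)) := by
  classical
  have hN0 : 0 < N := by linarith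
  have hp0 : (0 : ℝ) < p := by exact_mod_cast hp.pos
  haveI : NeZero p := ⟨hp.ne_zero⟩
  haveI : NeZero (p ^ 2) := ⟨pow_ne_zero 2 hp.ne_zero⟩
  have hsq : (p : ℝ) ^ 2 ≤ N ^ (δ / 5000) := by
    have h3 : (p : ℝ) ^ 2 ≤ (N ^ (δ / 10000)) ^ 2 := pow_le_pow_left₀ hp0.le hpN 2
    have h4 : (N ^ (δ / 10000)) ^ 2 = N ^ (δ / 5000) := by
      rw [← Real.rpow_natCast, ← Real.rpow_mul hN0.le]
      norm_num
      ring_nf
    rwa [h4] at h3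
  -- part (a)
  have ha := h1 (p ^ 2) (Nat.one_le_iff_ne_zero.2 (pow_ne_zero 2 hp.ne_zero)) (by exact_mod_cast hsq)
    (4 * p ^ 4)
    (fun nk => if p ∣ nk.1 then ∅ else ST1_lift (p ^ 2)
      {x | Pp (nk.1 : ZMod (p ^ 2)) (nk.2 : ZMod (p ^ 2)) x.1 x.2.1 x.2.2 = 0})
    (by
      intro nk
      split_ifs with h
      · simp
      · refine le_trans (ST1_lift_card _ _) ?_
        refine hSQ2 p hp hp2 _ _ ?_
        rw [ZMod.isUnit_iff_coprime]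
        exact Nat.Coprime.pow_right 2 ((Nat.Prime.coprime_iff_not_dvd hp).2 h).symm)
    (F.filter (fun t => ¬ p ∣ t.1.1))
    (by
      intro t ht
      rw [Finset.mem_filter] at ht
      obtain ⟨hc, hd⟩ := hF t ht.1
      refine ⟨hc, Nat.Coprime.pow_right 2 ((Nat.Prime.coprime_iff_not_dvd hp).2 ht.2).symm, ?_⟩
      rw [if_neg ht.2]
      have hmem := ST1_lift_mem (p ^ 2)
        {x | Pp (t.1.1 : ZMod (p ^ 2)) (t.1.2 : ZMod (p ^ 2)) x.1 x.2.1 x.2.2 = 0}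
        t.2.1 t.2.2.1 (RR t) (by
          rw [Set.mem_setOf_eq]
          have h5 := ST1_cast (p ^ 2) (t.1.1 : ℤ) (t.1.2 : ℤ) t.2.1 t.2.2.1 (RR t)
          rw [Int.cast_natCast, Int.cast_natCast] at h5
          rw [h5, (hSQ0 t hc.tt).2.2, ZMod.intCast_zmod_eq_zero_iff_dvd]
          push_cast
          exact Dvd.dvd.mul_left hd _)
      exact hmem)
  -- part (b)
  have hpN' : (p : ℝ) ≤ N ^ (δ / 5000) :=
    le_trans hpN (Real.rpow_le_rpow_of_exponent_le hN (by linarith))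
  have hb := h2 p hp hpN' (2 * p ^ 2)
    (fun nk => if p ∣ nk.2 then ∅ else ST1_lift p
      {x | x.1 * ((nk.2 : ZMod p) ^ 2 * x.1 * x.2.2 ^ 2 + 4 * x.2.1 ^ 5) = 0})
    (by
      intro nk
      split_ifs with h
      · simp
      · refine le_trans (ST1_lift_card _ _) ?_
        refine hSQ4.2 p hp hp2 _ ?_
        rw [Ne, ZMod.natCast_eq_zero_iff]
        exact h)
    (F.filter (fun t => p ∣ t.1.1))
    (by
      intro t ht
      rw [Finset.mem_filter] at ht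
      obtain ⟨hc, hd⟩ := hF t ht.1
      refine ⟨hc, ht.2, ?_⟩
      have hk : ¬ p ∣ t.1.2 := by
        intro hk
        exact hp.one_lt.ne' (Nat.dvd_one.1 (by
          have := Nat.dvd_gcd ht.2 hk
          rwa [hc.tt.co] at this))
      rw [if_neg hk]
      refine ST1_lift_mem p _ t.2.1 t.2.2.1 (RR' t) ?_
      rw [Set.mem_setOf_eq]
      have h5 := hSQ4.1 t p hc.tt hp ht.2
      have h6 : (p : ℤ) ∣ dis t := Dvd.dvd.trans (Dvd.intro_left _ (by ring : (p : ℤ) * p = p ^ 2)) hd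
      have h7 : (p : ℤ) ∣ t.2.1 * ((t.1.2 : ℤ) ^ 2 * t.2.1 * (RR' t) ^ 2 + 4 * t.2.2.1 ^ 5) := by
        have h8 := dvd_sub (Dvd.dvd.mul_left h6 ((t.1.2 : ℤ) ^ 8)) h5
        rwa [sub_sub_cancel] at h8
      rw [← ZMod.intCast_zmod_eq_zero_iff_dvd] at h7
      push_cast at h7
      exact h7)
  have hcard : F.card = (F.filter (fun t => ¬ p ∣ t.1.1)).card + (F.filter (fun t => p ∣ t.1.1)).card := by
    rw [add_comm]
    exact (Finset.card_filter_add_card_filter_not (s := F) (fun t => p ∣ t.1.1)).symm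
  have h9 : (F.card : ℝ) = ((F.filter (fun t => ¬ p ∣ t.1.1)).card : ℝ) +
      ((F.filter (fun t => p ∣ t.1.1)).card : ℝ) := by
    exact_mod_cast hcard
  rw [h9]
  have h10 : C₁ * ((4 * p ^ 4 : ℕ) : ℝ) / ((p ^ 2 : ℕ) : ℝ) ^ 3 = 4 * C₁ * (1 / (p : ℝ) ^ 2) := by
    push_cast
    field_simp
  have h11 : C₂ * ((2 * p ^ 2 : ℕ) : ℝ) / (p : ℝ) ^ 4 = 2 * C₂ * (1 / (p : ℝ) ^ 2) := by
    push_cast
    field_simp
  rw [h10] at ha
  rw [h11] at hb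
  nlinarith [ha, hb]

theorem ST1 (hSQ0 : SQ0_stmt) (hSQ2 : SQ2_stmt) (hSQ4 : SQ4_stmt) (hSTA : STA_stmt) :
    ∀ δ : ℝ, ST1_stmt δ := by
  classical
  intro δ hδ hδ1 hE1 hE2 κ hκ
  obtain ⟨C₁, N₁, hC₁, h1⟩ := hE1 κ hκ
  obtain ⟨C₂, N₂, hC₂, h2⟩ := hE2 κ hκ
  refine ⟨(4 * C₁ + 2 * C₂) * 2, by linarith, fun w hw ε hε => ?_⟩
  obtain ⟨N₃, hN₃, h3⟩ := ST1_large δ ε hδ hε
  refine ⟨max N₃ (max N₁ N₂), fun N Y hN hY1 hY2 F hF => ?_⟩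
  have hNN₃ : N₃ ≤ N := le_trans (le_max_left _ _) hN
  have hN1 : 1 ≤ N := le_trans hN₃ hNN₃
  have hN0 : 0 < N := by linarith
  have hNN₁ : N₁ ≤ N := le_trans (le_trans (le_max_left _ _) (le_max_right _ _)) hN
  have hNN₂ : N₂ ≤ N := le_trans (le_trans (le_max_right _ _) (le_max_right _ _)) hN
  have hY0 : 0 < Y := lt_of_lt_of_le (Real.rpow_pos_of_pos hN0 _) hY1
  have hX0 : 0 < Y * N ^ (1 / 2 + δ / 100) := mul_pos hY0 (Real.rpow_pos_of_pos hN0 _)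
  set P : Finset ℕ := (range (⌊N ^ (δ / 10000)⌋₊ + 1)).filter (fun p => p.Prime ∧ w < p) with hP
  have hPN : ∀ p ∈ P, (p : ℝ) ≤ N ^ (δ / 10000) := by
    intro p hp
    rw [hP, Finset.mem_filter, Finset.mem_range] at hp
    exact (Nat.le_floor_iff (Real.rpow_nonneg hN0.le _)).1 (Nat.lt_succ_iff.1 hp.1)
  have hsub : F ⊆ P.biUnion (fun p => F.filter (fun t => (p : ℤ) ^ 2 ∣ dis t)) := by
    intro t ht
    obtain ⟨_, p, hp, hwp, hpN, hpd⟩ := hF t ht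
    rw [Finset.mem_biUnion]
    refine ⟨p, ?_, ?_⟩
    · rw [hP, Finset.mem_filter, Finset.mem_range]
      exact ⟨Nat.lt_succ_iff.2 (Nat.le_floor hpN), hp, hwp⟩
    · rw [Finset.mem_filter]
      exact ⟨ht, hpd⟩
  have hcard : (F.card : ℝ) ≤ ∑ p ∈ P, ((F.filter (fun t => (p : ℤ) ^ 2 ∣ dis t)).card : ℝ) := by
    have := le_trans (Finset.card_le_card hsub) Finset.card_biUnion_le
    exact_mod_cast this
  have hone : ∀ p ∈ P, ((F.filter (fun t => (p : ℤ) ^ 2 ∣ dis t)).card : ℝ) ≤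
      ((4 * C₁ + 2 * C₂) * (1 / (p : ℝ) ^ 2) + 2 * N ^ (-(δ / 4))) *
        (Y * N ^ (1 / 2 + δ / 100)) := by
    intro p hp
    have hp' := hp
    rw [hP, Finset.mem_filter, Finset.mem_range] at hp'
    refine ST1_one hSQ0 hSQ2 hSQ4 δ κ C₁ C₂ N Y hδ hN1 ?_ ?_ p hp'.2.1 (by omega) (hPN p hp) _ ?_
    · exact h1 N Y N hNN₁ hY1 hY2 le_rfl (by
        have := Real.rpow_le_rpow_of_exponent_le hN1 (by linarith : (1 : ℝ) ≤ 1 + δ / 5000)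
        rwa [Real.rpow_one] at this)
    · exact h2 N Y hNN₂ hY1 hY2
    · intro t ht
      rw [Finset.mem_filter] at ht
      exact ⟨(hF t ht.1).1, ht.2⟩
  have hsum := Finset.sum_le_sum hone
  rw [← Finset.sum_mul, Finset.sum_add_distrib, ← Finset.mul_sum, Finset.sum_const,
    nsmul_eq_mul] at hsum
  have hsta : ∑ g ∈ P, 1 / (g : ℝ) ^ 2 ≤ 2 / (w : ℝ) := by
    refine (hSTA w P (by omega) ?_).2
    intro g hg
    rw [hP, Finset.mem_filter] at hg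
    exact hg.2.2
  have hPc : (P.card : ℝ) ≤ N ^ (δ / 10000) + 1 := by
    have h4 : P.card ≤ ⌊N ^ (δ / 10000)⌋₊ + 1 := by
      rw [hP]
      refine le_trans (Finset.card_filter_le _ _) ?_
      rw [Finset.card_range]
    have h5 : (P.card : ℝ) ≤ (⌊N ^ (δ / 10000)⌋₊ : ℝ) + 1 := by exact_mod_cast h4
    have h6 := Nat.floor_le (Real.rpow_nonneg hN0.le (δ / 10000))
    linarith
  have h7 := h3 N hNN₃
  have h8 : 0 < N ^ (-(δ / 4)) := Real.rpow_pos_of_pos hN0 _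
  have h9 : (P.card : ℝ) * (2 * N ^ (-(δ / 4))) ≤ ε := by
    have h10 : (P.card : ℝ) * (2 * N ^ (-(δ / 4))) ≤ (N ^ (δ / 10000) + 1) * (2 * N ^ (-(δ / 4))) :=
      mul_le_mul_of_nonneg_right hPc (by positivity)
    linarith
  have h11 : (4 * C₁ + 2 * C₂) * ∑ g ∈ P, 1 / (g : ℝ) ^ 2 ≤ (4 * C₁ + 2 * C₂) * (2 / (w : ℝ)) :=
    mul_le_mul_of_nonneg_left hsta (by linarith)
  have h12 : (4 * C₁ + 2 * C₂) * 2 / (w : ℝ) = (4 * C₁ + 2 * C₂) * (2 / (w : ℝ)) := by ring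
  rw [h12]
  refine le_trans hcard (le_trans hsum ?_)
  exact mul_le_mul_of_nonneg_right (add_le_add h11 h9) hX0.le

end Pool.Agent.T5
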