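import Pool.Agent.helper8.T5.SpecU

/-!
# T5, row UFX: the structure `Full` for a given ideal
-/

set_option autoImplicit false

namespace Pool.Agent.T5

open Finset NumberField Pool.Agent.helper3.FT Pool.Agent.helper47.RA

variable {K : Type} [Field K] [NumberField K]

theorem UFX_ne {x : 𝓞 K} (hx : x ≠ 0) : Ideal.span {x} ≠ (⊥ : Ideal (𝓞 K)) := by
  simpa [Ideal.span_singleton_eq_bot] using hx

theorem UFX_pos {x : 𝓞 K} (hx : x ≠ 0) : 0 < Ideal.absNorm (Ideal.span {x}) := by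
  rw [Nat.pos_iff_ne_zero, Ne, Ideal.absNorm_eq_zero_iff]
  exact UFX_ne hx

theorem UFX_min (b : Ideal (𝓞 K)) (hex0 : ∃ α ∈ b, α ≠ 0) :
    ∃ x : 𝓞 K, x ≠ 0 ∧ (∃ c : Ideal (𝓞 K), Ideal.span {x} = b * c ∧ Prim c) ∧
      ∀ y ∈ b, y ≠ 0 → Ideal.absNorm (Ideal.span {x}) ≤ Ideal.absNorm (Ideal.span {y}) := by
  classical
  have hex : ∃ n : ℕ, ∃ x ∈ b, x ≠ 0 ∧ Ideal.absNorm (Ideal.span {x}) = n := by
    obtain ⟨x, hx, h0⟩ := hex0
    exact ⟨_, x, hx, h0, rfl⟩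
  obtain ⟨x, hx, h0, h3⟩ := Nat.find_spec hex
  have hmin : ∀ y ∈ b, y ≠ 0 → Ideal.absNorm (Ideal.span {x}) ≤ Ideal.absNorm (Ideal.span {y}) :=
    fun y hy e0 => by
      rw [h3]
      exact Nat.find_min' hex ⟨y, hy, e0, rfl⟩
  obtain ⟨c, hc⟩ := Ideal.dvd_span_singleton.2 hx
  refine ⟨x, h0, ⟨c, hc, ?_⟩, hmin⟩
  intro q hq hdvd
  obtain ⟨d, hd⟩ := hdvd
  have e1 : Ideal.span {x} = Ideal.span {(q : 𝓞 K)} * (b * d) := by
    rw [hc, hd]; ring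
  have e2 : Ideal.span {(q : 𝓞 K)} ∣ Ideal.span {x} := ⟨_, e1⟩
  have e3 : (q : 𝓞 K) ∣ x := Ideal.mem_span_singleton.1 (Ideal.dvd_span_singleton.1 e2)
  obtain ⟨y, hy⟩ := e3
  have hq0 : (q : 𝓞 K) ≠ 0 := by exact_mod_cast hq.ne_zero
  have e4 : Ideal.span {y} = b * d := by
    have : Ideal.span {(q : 𝓞 K)} * Ideal.span {y} = Ideal.span {(q : 𝓞 K)} * (b * d) := by
      rw [← e1, hy, Ideal.span_singleton_mul_span_singleton]
    exact mul_left_cancel₀ (UFX_ne hq0) this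
  have hyb : y ∈ b := Ideal.dvd_span_singleton.1 ⟨d, e4⟩
  have hy0 : y ≠ 0 := by
    rintro rfl
    exact h0 (by rw [hy, mul_zero])
  have h5 := hmin y hyb hy0
  have h6 : Ideal.absNorm (Ideal.span {x}) =
      Ideal.absNorm (Ideal.span {(q : 𝓞 K)}) * Ideal.absNorm (Ideal.span {y}) := by
    rw [hy, ← Ideal.span_singleton_mul_span_singleton, map_mul]
  have h7 := UFX_pos hy0
  have h8 : 1 < Ideal.absNorm (Ideal.span {(q : 𝓞 K)}) := by
    have h9 := UFX_pos hq0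
    rcases Nat.lt_or_ge 1 (Ideal.absNorm (Ideal.span {(q : 𝓞 K)})) with h | h
    · exact h
    · have h10 : Ideal.absNorm (Ideal.span {(q : 𝓞 K)}) = 1 := by omega
      rw [Ideal.absNorm_eq_one_iff, Ideal.span_singleton_eq_top] at h10
      exfalso
      have h11 : ((q : ℕ) : 𝓞 K) = algebraMap ℤ (𝓞 K) (q : ℤ) := by simp
      rw [h11] at h10
      have h12 : IsUnit (q : ℤ) := by
        obtain ⟨u, hu⟩ := h10
        have h13 : Algebra.norm ℤ (algebraMap ℤ (𝓞 K) (q : ℤ)) = (q : ℤ) ^ Module.finrank ℤ (𝓞 K) :=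
          Algebra.norm_algebraMap _
        have h14 : IsUnit (Algebra.norm ℤ (algebraMap ℤ (𝓞 K) (q : ℤ))) := by
          rw [← hu]
          exact (Units.map (Algebra.norm ℤ (S := 𝓞 K)) u).isUnit
        rw [h13] at h14
        exact (isUnit_pow_iff (Module.finrank_pos (R := ℤ) (M := 𝓞 K)).ne').1 h14
      exact (Nat.prime_iff_prime_int.1 hq).not_unit h12
  rw [h6] at h5
  nlinarith

theorem UFX_sign (Q : QF K) (hD : Q.D < 0) {x : 𝓞 K} (hx : x ≠ 0) {N : ℤ} (h : x * Q.cj x = N) :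
    0 < N := by
  obtain ⟨x1, hx1⟩ := Q.exists_re x
  generalize Q.Y x = x2 at hx1
  have h1 : N = x1 ^ 2 + Q.t * x1 * x2 - Q.k * x2 ^ 2 := by
    rw [hx1, Q.norm_form] at h
    exact (QF.int_inj h).symm
  have h2 : 4 * N = (2 * x1 + Q.t * x2) ^ 2 - Q.D * x2 ^ 2 := by
    have h3 : Q.t ^ 2 = Q.t := Q.t_sq
    rw [h1, Q.hk]
    linear_combination (-(x2 ^ 2)) * h3
  have h4 : 0 ≤ N := by nlinarith [sq_nonneg (2 * x1 + Q.t * x2), sq_nonneg x2]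
  have h5 := Q.absNorm_eq x N h
  have h6 := UFX_pos hx
  rcases h4.lt_or_eq with h7 | h7
  · exact h7
  · rw [← h7, abs_zero] at h5
    omega

theorem UFX : UFX_stmt := by
  intro K _ _ Q hD a ha hpa hprin B hB
  obtain ⟨α, hα, hα0, hαB⟩ := hB
  obtain ⟨β, hβ0, ⟨L, hL, hpL⟩, hmin⟩ := UFX_min (a ^ 2) ⟨α, hα, hα0⟩
  obtain ⟨θ, hθ⟩ : ∃ θ : 𝓞 K, a ^ 5 = Ideal.span {θ} := by
    obtain ⟨θ, hθ⟩ := hprin
    exact ⟨θ, by simpa using hθ⟩
  have hθ0 : θ ≠ 0 := by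
    rintro rfl
    have h : a ^ 5 = 0 := by rw [hθ]; simp
    exact ha ((pow_eq_zero_iff (by norm_num)).1 h)
  have hz0 : Ideal.absNorm a ≠ 0 := by rwa [Ne, Ideal.absNorm_eq_zero_iff]
  obtain ⟨γ, hγ1, hγ2⟩ := exists_div_aux ((Ideal.absNorm a : 𝓞 K) * β ^ 2) θ hθ0 (Q.bar a * L ^ 2) (by
    rw [← Ideal.span_singleton_mul_span_singleton, ← Ideal.span_singleton_pow, hL, ← Q.mul_bar, ← hθ]
    ring)
  have hγ0 : γ ≠ 0 := by
    rintro rfl
    rw [mul_zero] at hγ1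
    have h1 : (Ideal.absNorm a : 𝓞 K) ≠ 0 := by exact_mod_cast hz0
    exact (mul_ne_zero h1 (pow_ne_zero 2 hβ0)) hγ1
  obtain ⟨F, hFa, hFL, hFβ, hFγ⟩ := exists_full_of Q a L β γ hβ0 hγ0 hL hγ2 hpa hpL
  have hN1 : 0 < F.Z ^ 2 * F.Λ := by
    refine UFX_sign Q hD (x := F.β) (by rw [hFβ]; exact hβ0) ?_
    rw [F.nβ]
    push_cast
    rfl
  have hN2 : 0 < F.Z * F.Λ ^ 2 := by
    refine UFX_sign Q hD (x := F.γ) (by rw [hFγ]; exact hγ0) ?_
    rw [F.nγ]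
    push_cast
    rfl
  have hZ2 : 0 < F.Z ^ 2 := by
    have := F.hZ
    positivity
  have hΛ2 : 0 < F.Λ ^ 2 := by
    have := F.hΛ
    positivity
  have hΛ : 0 < F.Λ := by
    by_contra h
    push Not at h
    have := mul_nonpos_of_nonneg_of_nonpos hZ2.le h
    linarith
  have hZ : 0 < F.Z := by
    by_contra h
    push Not at h
    have := mul_nonpos_of_nonpos_of_nonneg h hΛ2.le
    linarith
  refine ⟨F, hFa, hΛ, ?_, ?_, hZ⟩
  · have h1 : (Ideal.absNorm F.L : ℤ) = F.Λ := by rw [F.nL, abs_of_pos hΛ]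
    rw [hFL] at h1
    have h2 : ((Ideal.absNorm L : ℕ) : ℝ) = (F.Λ : ℝ) := by exact_mod_cast h1
    have h3 := hmin α hα hα0
    rw [hL, map_mul, map_pow] at h3
    have h4 : ((Ideal.absNorm a ^ 2 * Ideal.absNorm L : ℕ) : ℝ) ≤
        ((Ideal.absNorm (Ideal.span {α}) : ℕ) : ℝ) := by exact_mod_cast h3
    rw [Q.hnorm, ← Q.himag hD α] at h4
    push_cast at h4
    have h5 : (0 : ℝ) < (Ideal.absNorm a : ℝ) ^ 2 := by
      have : (0 : ℝ) < (Ideal.absNorm a : ℝ) := by exact_mod_cast Nat.pos_of_ne_zero hz0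
      positivity
    have h6 : (Ideal.absNorm a : ℝ) ^ 2 * (Ideal.absNorm L : ℝ) ≤ (Ideal.absNorm a : ℝ) ^ 2 * B := by
      nlinarith
    rw [← h2]
    exact le_of_mul_le_mul_left h6 h5
  · have h1 : (Ideal.absNorm F.a : ℤ) = F.Z := by rw [F.na, abs_of_pos hZ]
    rw [← h1, hFa]

end Pool.Agent.T5
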